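import Pool.Agent.Q55.LM.Fin2
import Pool.Agent.Q187.LM.FQ
import Pool.Agent.Q187.LM.MU
import Pool.Agent.Q187.LM.KLOW
import Pool.Agent.Q187.LM.KUP
import Pool.Agent.Q187.LM.LOC
import Pool.Agent.Q187.LM.LFN
import Pool.Agent.Q53.LM.Dim
import Pool.Agent.Q53.LM.Pencil
import Pool.Agent.Q53.LM.Key
import Pool.Agent.Q53.LM.Len
import Pool.Agent.Q53.LM.Asm
import Pool.Agent.Q56.LM.VMul
import Pool.Agent.Q56.LM.Near
import Pool.Agent.Q229.LM.Comb
import Pool.Agent.Q229.LM.Low
import Pool.Agent.Q229.LM.Ell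
import Pool.Agent.Q229.LM.Count
import Pool.Agent.Q229.LM.FamJ
import Pool.Agent.Q129.LM.Iso
import Pool.Agent.Q129.LM.Fam

/-!
# Simple elliptic surface singularities are semistable

Let `R_f = ℂ[[x, y, z]] / (f)`, where `f` is one of

* `fX l = x ^ 2 + y ^ 4 + z ^ 4 + l x y z`, `l ^ 4 ≠ 64` (type `X_{1,0}`),
* `fJ l = x ^ 2 + y ^ 3 + z ^ 6 + l x y z`, `l ^ 6 ≠ 432` (type `J_{2,0}`),
* `fT l = x ^ 3 + y ^ 3 + z ^ 3 + l x y z`, `l ^ 3 ≠ -27` (type `T_{3,3,3}`).

Then the Lech–Mumford constant of the three-dimensional local ring `R_f[[T]]` is equal to `1`: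
`e(I) ≤ 3! ℓ(R_f[[T]] / I)` for every ideal `I` whose radical is the maximal ideal.

Proof.  `R_f` is isomorphic to `S = ∏_j fil (n j) τ ^ j ⊆ B[[τ]]`, where `B` is the coordinate ring of
an affine elliptic curve `y² = x³ + A x + B`, `fil i` the space of the functions with a pole of order
at most `i` at infinity, and `n = 2, 1, 3`.  For an ideal `I` of `S[[T]]` let `V_{kj}(I) ⊆ fil (n j)` be
the space of the leading coefficients at `τ ^ j T ^ k`; the colength of `I` is the sum of the
codimensions of the `V_{kj}(I)`, and `V(I ^ m)` contains the products of `m` factors `V(I)`.  For a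
linear system `V` let `mu V` be the degree of its moving part.  `dim V ≤ mu V` if `dim V ≥ 2` (the
curve has genus one), and `dim (V_1 ⋯ V_r fil c) ≥ ∑ mu V_i + c` for large `c` (base point free pencil
trick).  So the colength of `I ^ m` is at most `m ^ 3` times the volume below the lower convex
envelope of the function `(j, q) ↦ min {k | mu V_{kj} ≥ q}` on the lattice points of the cone
`0 ≤ q ≤ n j`, up to `O(m ^ 2)`.  The values at `q = 1` do not occur (no rational function has a single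
simple pole on an elliptic curve); they are replaced by the mean of the values at `q = 0` and
`q = n j`.  Interpolation on a unimodular triangulation of the cone gives the inequality.
-/

namespace Pool.Agent.Results.MP_b8f3cd_ag.SimpleElliptic

open Pool.Agent.Q55.LM

theorem up : S_Up := by
  have hFQ : S_FQ := Pool.Agent.Q187.LM.t_fq
  have hMu : S_Mu := Pool.Agent.Q187.LM.t_mu hFQ
  have hDim : S_Dim := Pool.Agent.Q53.LM.dim hMu
  have hPen : S_Pencil := Pool.Agent.Q53.LM.pencil hMu hDim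
  have hKey : S_Key := Pool.Agent.Q53.LM.key hMu hDim hPen
  exact Pool.Agent.Q53.LM.asm hMu hDim hKey Pool.Agent.Q53.LM.len Pool.Agent.Q56.LM.vmul
    (Pool.Agent.Q56.LM.near hMu hDim hKey) Pool.Agent.Q229.LM.Comb.comb

theorem iso' : S_Iso := Pool.Agent.Q129.LM.iso Pool.Agent.Q229.LM.Count.count

/-- **Simple elliptic surface singularities are semistable.** -/
theorem result (l : ℂ) :
    (l ^ 4 ≠ 64 → IsLocalRing (PowerSeries (Rf (fX l))) ∧
      ringKrullDim (PowerSeries (Rf (fX l))) = 3 ∧ lechMumford (PowerSeries (Rf (fX l))) = 1) ∧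
    (l ^ 6 ≠ 432 → IsLocalRing (PowerSeries (Rf (fJ l))) ∧
      ringKrullDim (PowerSeries (Rf (fJ l))) = 3 ∧ lechMumford (PowerSeries (Rf (fJ l))) = 1) ∧
    (l ^ 3 ≠ -27 → IsLocalRing (PowerSeries (Rf (fT l))) ∧
      ringKrullDim (PowerSeries (Rf (fT l))) = 3 ∧ lechMumford (PowerSeries (Rf (fT l))) = 1) := by
  have hl : S_Lfn := Pool.Agent.Q187.LM.t_lfn
  have hloc : S_Loc := Pool.Agent.Q187.LM.t_loc
  have hk : S_KLow := Pool.Agent.Q187.LM.t_klow
  have hlow : S_Low := Pool.Agent.Q229.LM.Low.low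
  obtain ⟨u1, u2, u3⟩ := Pool.Agent.Q187.LM.t_kup l
  have c1 : (fX l).coeff 0 = 0 := by
    rw [← MvPolynomial.constantCoeff_eq]
    simp [fX]
  have c2 : (fJ l).coeff 0 = 0 := by
    rw [← MvPolynomial.constantCoeff_eq]
    simp [fJ]
  have c3 : (fT l).coeff 0 = 0 := by
    rw [← MvPolynomial.constantCoeff_eq]
    simp [fT]
  refine ⟨fun h => ?_, fun h => ?_, fun h => ?_⟩
  · exact fam_result up hlow hl hloc hk c1 u1 (n := 2) (by norm_num) (by norm_num)
      (Pool.Agent.Q129.LM.Fam.famX Pool.Agent.Q229.LM.Ell.ell iso' l h)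
  · exact fam_result up hlow hl hloc hk c2 u2 (n := 1) (by norm_num) (by norm_num)
      (Pool.Agent.Q229.LM.FamJ.famJ Pool.Agent.Q229.LM.Ell.ell iso' l h)
  · exact fam_result up hlow hl hloc hk c3 u3 (n := 3) (by norm_num) (by norm_num)
      (Pool.Agent.Q129.LM.Fam.famT Pool.Agent.Q229.LM.Ell.ell iso' l h)

end Pool.Agent.Results.MP_b8f3cd_ag.SimpleElliptic
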